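import Pool.Agent.BEW.StmtsP
import Pool.Agent.Helper77_BEW.NUF
import Pool.Agent.Helper39_BEL.RIN
import Pool.Agent.Helper70_BE01.Fnl

set_option autoImplicit false

/-!
# Squad BEW, row SLA: the solution in the shell
-/

namespace Pool.Agent.BEW.H20

open Set Filter Topology MeasureTheory
open scoped InnerProductSpace ENNReal NNReal
open Pool.Agent.BE01 Pool.Agent.BEL Pool.Agent.BEG Pool.Agent.BEH Pool.Agent.BER Pool.Agent.BEW

noncomputable section

theorem gf_meas (al : ℝ) : Measurable (gf 1 al) := by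
  unfold gf
  exact (measurable_const.mul (continuous_abs.measurable.pow_const al)).mul measurable_id

theorem gf_le {al s : ℝ} (hal : 0 < al) (hs : |s| ≤ 1) : |gf 1 al s| ≤ 1 := by
  unfold gf
  rw [one_mul, abs_mul, abs_of_nonneg (Real.rpow_nonneg (abs_nonneg s) al)]
  exact mul_le_one₀ (Real.rpow_le_one (abs_nonneg s) hs hal.le) (abs_nonneg s) hs

theorem sla (hgrd : GrdStmt) : SlaStmt := by
  intro d β al m c C J e om P V L w hd hβ hal hJ hom hG hM hc hb
  obtain ⟨hfin, -, -, -, -⟩ := Pool.Agent.BEW.H77.nuf d β hβ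
  have hom2 : ∀ k, 1 / 2 ≤ om k := by
    intro k
    have h1 := hom k
    have h2 : (0 : ℝ) ≤ (k : ℝ) := Nat.cast_nonneg k
    linarith
  have homp : ∀ k, 0 < om k := fun k => lt_of_lt_of_le (by norm_num) (hom2 k)
  obtain ⟨R, hR⟩ := Pool.Agent.BEL.H39.rin (Lp ℝ 2 (nu d β)) ℕ e om ⟨1 / 2, by norm_num, hom2⟩
  obtain ⟨Gr, g1, g2, g3⟩ := hgrd d β m J e om R hd hβ hJ hom hR hG
  have hRL : ∀ t, R (L t) = V t := by
    intro t
    apply e.repr.injective
    ext k
    rw [e.repr_apply_apply, e.repr_apply_apply, hR, hM.mL]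
    have := homp k
    field_simp
  have hF : ∀ t, 0 ≤ t → MemLp (fun r => gf 1 al (V t r)) 2 (nu d β) := by
    intro t ht
    refine MemLp.of_bound ?_ 1 ?_
    · exact ((gf_meas al).comp_aemeasurable
        (Lp.aestronglyMeasurable (V t)).aemeasurable).aestronglyMeasurable
    · filter_upwards [hM.bd t ht] with r hr
      rw [Real.norm_eq_abs]
      exact gf_le hal hr
  refine ⟨fun t => J (R (P t)), fun t => J (V t), fun t => J (w t), fun t => Gr (P t), ?_,
    m * c, m * C, mul_pos hJ.pos hc, ?_⟩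
  · refine ⟨fun t _ => g1 (P t), fun t _ => ⟨Gr (L t), ?_⟩, fun t _ => ?_, fun t _ => ?_, ?_, ?_,
      fun t ht => ⟨1, ?_⟩, fun t ht ψ hψ => ?_⟩
    · have h1 := g1 (L t)
      rw [hRL t] at h1
      exact h1
    · have h1 := (J.comp R).hasFDerivAt.comp_hasDerivAt t (hM.dP t)
      have h2 : (J.comp R) (L t) = J (V t) := by
        rw [ContinuousLinearMap.comp_apply, hRL t]
      rw [h2] at h1
      exact h1
    · exact J.hasFDerivAt.comp_hasDerivAt t (hM.dV t)
    · have h1 : Continuous P := continuous_iff_continuousAt.2 fun t => (hM.dP t).continuousAt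
      exact (Gr.continuous.comp h1).continuousOn
    · exact (J.continuous.comp hM.cw).continuousOn
    · have h1 := hJ.ac (fun r => |V t r| ≤ 1) (hM.bd t ht)
      filter_upwards [h1, hJ.ev (V t)] with x h2 h3
      rw [h3]
      exact h2
    · set F : Lp ℝ 2 (nu d β) := (hF t ht).toLp _ with hFd
      have hFe : F =ᵐ[nu d β] fun r => gf 1 al (V t r) := (hF t ht).coeFn_toLp
      have hy : ∀ k, ⟪e k, -(w t) - F⟫_ℝ = om k * ⟪e k, P t⟫_ℝ := by
        intro k
        rw [inner_sub_right, inner_neg_right, hM.mw k t ht]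
        have h1 : ⟪e k, F⟫_ℝ = ∫ x, gf 1 al (V t x) * e k x ∂(nu d β) := by
          rw [L2.inner_def]
          refine integral_congr_ae ?_
          filter_upwards [hFe] with x hx
          rw [hx]
          simp only [RCLike.inner_apply, conj_trivial]
        rw [h1]
        ring
      have hw := g3 (P t) (-(w t) - F) hy ψ hψ
      have hJF : J F =ᵐ[mu (Sh d β (β + Real.pi))]
          fun x => 1 * |J (V t) x| ^ al * J (V t) x := by
        filter_upwards [hJ.ev F, hJ.ev (V t),
          hJ.ac (fun r => F r = gf 1 al (V t r)) hFe] with x h1 h2 h3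
        rw [h1, h2, h3]
        rfl
      have hJy : J (-(w t) - F) =ᵐ[mu (Sh d β (β + Real.pi))]
          fun x => -(J (w t) x) - 1 * |J (V t) x| ^ al * J (V t) x := by
        have h0 : J (-(w t) - F) = -(J (w t)) - J F := by rw [map_sub, map_neg]
        rw [h0]
        filter_upwards [Lp.coeFn_sub (-(J (w t))) (J F), Lp.coeFn_neg (J (w t)), hJF] with x h1 h2 h3
        rw [h1, Pi.sub_apply, h2, Pi.neg_apply, h3]
      have hfin2 : (fun x => J (w t) x * ψ x + ⟪Gr (P t) x, gradient ψ x⟫_ℝ +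
          1 * |J (V t) x| ^ al * J (V t) x * ψ x) =ᵐ[mu (Sh d β (β + Real.pi))]
          fun x => ⟪Gr (P t) x, gradient ψ x⟫_ℝ - J (-(w t) - F) x * ψ x := by
        filter_upwards [hJy] with x h1
        rw [h1]
        ring
      change ∫ x, J (w t) x * ψ x + ⟪Gr (P t) x, gradient ψ x⟫_ℝ +
          1 * |J (V t) x| ^ al * J (V t) x * ψ x ∂(mu (Sh d β (β + Real.pi))) = 0
      rw [integral_congr_ae hfin2,
        integral_sub (Pool.Agent.Helper70BE01Fnl.int_inner (Gr (P t)) hψ)
          (Pool.Agent.Helper70BE01Fnl.int_mul (J (-(w t) - F)) hψ), hw, sub_self]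
  · intro t ht
    have h1 : energy (Sh d β (β + Real.pi)) (fun t => J (V t)) (fun t => Gr (P t)) t =
        m * (‖P t‖ ^ 2 + ‖V t‖ ^ 2) := by
      rw [Pool.Agent.Helper70BE01Fnl.energy_eq, hJ.nrm (V t), g2 (P t)]
      ring
    rw [h1, mul_assoc, mul_assoc]
    exact ⟨mul_le_mul_of_nonneg_left (hb t ht).1 hJ.pos.le,
      mul_le_mul_of_nonneg_left (hb t ht).2 hJ.pos.le⟩

end

end Pool.Agent.BEW.H20
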